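import Pool.Agent.Zk72.NS.Main2
import Pool.Agent.Zk36.CO.Main
import Pool.Agent.Zk36.CO.NEC
import Pool.Agent.Zk11.FK

/-!
# The exact near-critical window of the exploration path of bond percolation on `ℤ²`

Bond percolation on `δ ℤ²` in a rectangle with the Dobrushin boundary condition; the exploration
path is a curve modulo reparametrisation. The window is `|p - 1/2| ≍ δ ^ (3/4)`:

(1) Homogeneous percolation. The laws of the exploration path at `p n` and at `1/2` are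
asymptotically equal in every rectangle if and only if `|p n - 1/2| (δ n) ^ (-3/4) → 0`.

(2) Bounds inside. (a) Let `B` be the critical configuration and `U` an independent random set which
contains each edge with probability `ε`. The probability that some configuration which is equal
to `B` outside of `U` has an exploration path at distance greater than `ρ` from the one of `B` is at
most `C ε δ ^ (-3/4) / ρ`. (b) Every law of the set of open edges for which the conditional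
probability that an edge is open, given all the other edges, is always in `[1/2 - ε, 1/2 + ε]`, has
a coupling with critical percolation such that the distance of the two exploration paths exceeds
`ρ` with probability at most `C ε δ ^ (-3/4) / ρ`.

(3) Bounds outside. If these conditional probabilities are at least `1/2 + ε` (at most `1/2 - ε`),
then the distance of the exploration path from the complementary arc (the wired arc) exceeds `ρ`
with probability at most `C ρ ^ (-2) exp (- c ρ ε ^ (4/3) / δ)`.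

(4) Limits. If `ε δ ^ (-3/4) → 0` then the laws of the exploration paths in (b) have the same limits
as at criticality. If `ε δ ^ (-3/4) → ∞` then the laws of the exploration paths in (3) converge to
the Dirac masses at the arcs.

(5) Examples of laws in (b): independent edges with different probabilities, and the self-dual
random-cluster laws with cluster weight `q` near to `1`.

Definitions: `Pool.Agent.H984R4.NP.Model` (`Rect`, `Rect.dm`, `Rect.curve`, `pl`, `pos`),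
`Pool.Agent.H984R4.NP.Defs` (`Dm`, `Dm.edges`, `Dm.wir`, `Dm.cfg`, `Dm.walk`, `Dm.len`),
`Pool.Agent.H984R3.Per.Defs` (`St`, `nxt`, `orb`), `Pool.Agent.H342R3.Lim.Defs` (`cdist`),
`Pool.Agent.H342R3.Lim.Curve` (`Curve`), `Pool.Agent.Zk36.CO.Defs` (`arcR`, `arcL`),
`Pool.Agent.Zk11.FK` (`nclu`, `fkw`, `fkZ`, `fk`).

Joint work of helper72, helper60 and helper36 with helper11, helper25, helper47, helper62, helper67,
helper76, helper78, helper80, helper82, helper85 and helper96.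
-/

set_option autoImplicit false

namespace Pool.Agent.Results.MP_fe58d8_pr.ExactWindow

open H974 H984N H342L Finset MeasureTheory TopologicalSpace Filter Topology
open Pool.Agent.Zk36.CO (arcR arcL)
open Pool.Agent.Zk60.NW (fk)

/-- `w` is a probability on the sets `F ⊆ S` of open edges, under which the conditional
probability that an edge is open, given the states of all the other edges, is always between `a`
and `b`. -/
structure Cond (S : Finset Edg) (a b : ℝ) (w : Finset Edg → ℝ) : Prop where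
  nonneg : ∀ F ⊆ S, 0 ≤ w F
  total : ∑ F ∈ S.powerset, w F = 1
  cond : ∀ e ∈ S, ∀ F ⊆ S, e ∉ F →
    a * (w (insert e F) + w F) ≤ w (insert e F) ∧ w (insert e F) ≤ b * (w (insert e F) + w F)

/-- Independent edges: `e` is in the random set with probability `p e`. -/
noncomputable def indep (S : Finset Edg) (p : Edg → ℝ) (F : Finset Edg) : ℝ :=
  (∏ e ∈ F, p e) * ∏ e ∈ S \ F, (1 - p e)

/-- Homogeneous percolation. -/
noncomputable def perc (R : Rect) (δ p : ℝ) (F : Finset Edg) : ℝ :=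
  indep (R.dm δ).edges (fun _ => p) F

/-- The expectation of a function of the exploration path at mesh `δ`, when the set of the open
edges has the law `w`. -/
noncomputable def mean (R : Rect) (δ : ℝ) (w : Finset Edg → ℝ) (f : Curve → ℝ) : ℝ :=
  ∑ F ∈ (R.dm δ).edges.powerset, w F * f ⟨R.curve δ F⟩

/-- The laws of the exploration path converge weakly to `P`. -/
def Conv (R : Rect) (δ : ℕ → ℝ) (w : ℕ → Finset Edg → ℝ) (P : ProbabilityMeasure Curve) : Prop :=
  ∀ f : BoundedContinuousFunction Curve ℝ,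
    Tendsto (fun n => mean R (δ n) (w n) f) atTop (𝓝 (∫ x, f x ∂(P : Measure Curve)))

theorem indep_cond {S : Finset Edg} {a b : ℝ} {p : Edg → ℝ} (ha : 0 ≤ a) (hb : b ≤ 1)
    (hp : ∀ e ∈ S, a ≤ p e ∧ p e ≤ b) : Cond S a b (indep S p) := by
  have h0 : ∀ F ⊆ S, 0 ≤ (∏ e ∈ F, p e) := fun F hF =>
    Finset.prod_nonneg fun e he => ha.trans (hp e (hF he)).1
  have h1 : ∀ F, 0 ≤ ∏ e ∈ S \ F, (1 - p e) := fun F => Finset.prod_nonneg fun e he => by
    have := (hp e (Finset.mem_sdiff.1 he).1).2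
    linarith
  refine ⟨fun F hF => mul_nonneg (h0 F hF) (h1 F), ?_, ?_⟩
  · have h2 := Ex_const (p := p) S 1
    unfold Ex at h2
    simp only [mul_one] at h2
    exact h2
  · intro e he F hF heF
    have e1 : S \ F = insert e (S \ insert e F) := by
      ext x
      simp only [Finset.mem_sdiff, Finset.mem_insert]
      constructor
      · rintro ⟨a, b⟩
        by_cases hx : x = e
        · exact Or.inl hx
        · exact Or.inr ⟨a, fun h => h.elim hx b⟩
      · rintro (rfl | ⟨a, b⟩)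
        · exact ⟨he, heF⟩
        · exact ⟨a, fun h => b (Or.inr h)⟩
    have e2 : indep S p F = (1 - p e) * ((∏ e ∈ F, p e) * ∏ e ∈ S \ insert e F, (1 - p e)) := by
      unfold indep
      rw [e1, Finset.prod_insert (by simp)]
      ring
    have e3 : indep S p (insert e F) =
        p e * ((∏ e ∈ F, p e) * ∏ e ∈ S \ insert e F, (1 - p e)) := by
      unfold indep
      rw [Finset.prod_insert heF]
      ring
    have e4 : 0 ≤ (∏ e ∈ F, p e) * ∏ e ∈ S \ insert e F, (1 - p e) :=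
      mul_nonneg (h0 F hF) (h1 _)
    obtain ⟨h2, h3⟩ := hp e he
    rw [e2, e3]
    constructor <;> nlinarith

theorem indep_half {S F : Finset Edg} (hF : F ⊆ S) :
    indep S (fun _ => 1/2) F = (1/2) ^ S.card := by
  unfold indep
  rw [Finset.prod_const, Finset.prod_const, show (1 - (1/2:ℝ)) = 1/2 by norm_num, ← pow_add,
    Finset.card_sdiff_of_subset hF]
  congr 1
  have := Finset.card_le_card hF
  omega

theorem nearP {S : Finset Edg} {ε : ℝ} {w : Finset Edg → ℝ} (h : Cond S (1/2 - ε) (1/2 + ε) w) :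
    Pool.Agent.Zk72.NS.NearP S ε w := by
  refine ⟨h.nonneg, h.total, fun e he F hF heF => ?_⟩
  obtain ⟨h1, h2⟩ := h.cond e he F hF heF
  rw [abs_le]
  constructor <;> linarith

theorem claw_mean (R : Rect) (δ : ℝ) {ε : ℝ} {w : Finset Edg → ℝ}
    (h : Pool.Agent.Zk72.NS.NearP (R.dm δ).edges ε w) (f : BoundedContinuousFunction Curve ℝ) :
    ∫ x, f x ∂(Pool.Agent.Zk72.NS.claw R δ w h : Measure Curve) = mean R δ w f :=
  Pool.Agent.Zk72.NS.clawM_integral R δ h.1 f f.continuous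

theorem conv_iff {R : Rect} {δ ε : ℕ → ℝ} {w : ℕ → Finset Edg → ℝ}
    (h : ∀ n, Pool.Agent.Zk72.NS.NearP (R.dm (δ n)).edges (ε n) (w n))
    (P : ProbabilityMeasure Curve) :
    Conv R δ w P ↔
      Tendsto (fun n => Pool.Agent.Zk72.NS.claw R (δ n) (w n) (h n)) atTop (𝓝 P) := by
  rw [ProbabilityMeasure.tendsto_iff_forall_integral_tendsto]
  refine forall_congr' fun f => ?_
  simp only [claw_mean]

theorem mean_congr {R : Rect} {δ : ℝ} {w w' : Finset Edg → ℝ} (f : Curve → ℝ)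
    (h : ∀ F ⊆ (R.dm δ).edges, w F = w' F) : mean R δ w f = mean R δ w' f :=
  Finset.sum_congr rfl fun F hF => by rw [h F (Finset.mem_powerset.1 hF)]

/-- Lipschitz functions of the curve, for coupled laws. -/
theorem lip_close {R : Rect} {δ : ℝ} {w : Finset Edg → ℝ} {c : Finset Edg → Finset Edg → ℝ}
    (hc : Pool.Agent.Zk72.NS.Cpl (R.dm δ).edges w c) (h1 : ∑ F ∈ (R.dm δ).edges.powerset, w F = 1)
    {f : Curve → ℝ} {K ρ : ℝ} (hK : 0 ≤ K) (hρ : 0 < ρ) (hf : ∀ x y, |f x - f y| ≤ K * dist x y)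
    (h01 : ∀ x, 0 ≤ f x ∧ f x ≤ 1) :
    |mean R δ w f - mean R δ (perc R δ (1/2)) f| ≤ K * ρ +
      ∑ F ∈ (R.dm δ).edges.powerset, ∑ F' ∈ (R.dm δ).edges.powerset,
        c F F' * ind (ρ < cdist (R.curve δ F) (R.curve δ F')) := by
  set S := (R.dm δ).edges with hS
  have e1 : mean R δ w f = ∑ F ∈ S.powerset, ∑ F' ∈ S.powerset, c F F' * f ⟨R.curve δ F⟩ := by
    unfold mean
    refine Finset.sum_congr rfl fun F hF => ?_
    rw [← Finset.sum_mul, hc.2.1 F hF]
  have e2 : mean R δ (perc R δ (1/2)) f =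
      ∑ F ∈ S.powerset, ∑ F' ∈ S.powerset, c F F' * f ⟨R.curve δ F'⟩ := by
    rw [Finset.sum_comm]
    unfold mean perc
    refine Finset.sum_congr rfl fun F' hF' => ?_
    rw [← Finset.sum_mul, hc.2.2 F' hF', indep_half (Finset.mem_powerset.1 hF')]
  have e3 : ∑ F ∈ S.powerset, ∑ F' ∈ S.powerset, c F F' = 1 := by
    rw [Finset.sum_congr rfl (fun F hF => hc.2.1 F hF)]
    exact h1
  rw [e1, e2, ← Finset.sum_sub_distrib]
  refine (Finset.abs_sum_le_sum_abs _ _).trans ?_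
  have e4 : K * ρ = ∑ F ∈ S.powerset, ∑ F' ∈ S.powerset, c F F' * (K * ρ) := by
    simp only [← Finset.sum_mul]
    rw [e3, one_mul]
  rw [e4, ← Finset.sum_add_distrib]
  refine Finset.sum_le_sum fun F _ => ?_
  rw [← Finset.sum_sub_distrib, ← Finset.sum_add_distrib]
  refine (Finset.abs_sum_le_sum_abs _ _).trans (Finset.sum_le_sum fun F' _ => ?_)
  rw [← mul_sub, abs_mul, abs_of_nonneg (hc.1 F F'), ← mul_add]
  refine mul_le_mul_of_nonneg_left ?_ (hc.1 F F')
  by_cases h : ρ < cdist (R.curve δ F) (R.curve δ F')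
  · rw [ind_of h]
    have h2 := h01 ⟨R.curve δ F⟩
    have h3 := h01 ⟨R.curve δ F'⟩
    have h4 : 0 ≤ K * ρ := mul_nonneg hK hρ.le
    rw [abs_le]
    constructor <;> linarith
  · rw [ind_not_of h, add_zero]
    refine (hf _ _).trans (mul_le_mul_of_nonneg_left ?_ hK)
    rw [Curve.dist_def]
    exact not_lt.1 h

theorem adversary_le {R : Rect} {δ ε ρ : ℝ} (hδ : 0 ≤ δ) (hD : (R.dm δ).Ok) (h0 : 0 ≤ ε)
    (h1 : ε ≤ 1) :
    ∑ U ∈ (R.dm δ).edges.powerset, ∑ B ∈ (R.dm δ).edges.powerset,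
      perc R δ ε U * perc R δ (1/2) B *
        ind (∃ F ⊆ (R.dm δ).edges, F \ U = B \ U ∧ ρ < cdist (R.curve δ B) (R.curve δ F)) ≤
    Pool.Agent.Zk72.NS.Q ε (R.dm δ).edges
      (fun U B => ρ < Pool.Agent.Zk72.NS.worst R δ U B) := by
  unfold Pool.Agent.Zk72.NS.Q P Pr Ex
  refine Finset.sum_le_sum fun U hU => ?_
  rw [Finset.mul_sum]
  refine Finset.sum_le_sum fun B hB => ?_
  have g1 : 0 ≤ perc R δ ε U :=
    (indep_cond (a := 0) (b := 1) le_rfl le_rfl fun _ _ => ⟨h0, h1⟩).nonneg U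
      (Finset.mem_powerset.1 hU)
  have g2 : 0 ≤ perc R δ (1/2) B :=
    (indep_cond (a := 0) (b := 1) le_rfl le_rfl fun _ _ => ⟨by norm_num, by norm_num⟩).nonneg B
      (Finset.mem_powerset.1 hB)
  have g3 : ind (∃ F ⊆ (R.dm δ).edges, F \ U = B \ U ∧
      ρ < cdist (R.curve δ B) (R.curve δ F)) ≤
      ind (ρ < Pool.Agent.Zk72.NS.worst R δ U B) := ind_mono fun ⟨F, hF, hFU, h⟩ =>
    h.trans_le (Pool.Agent.Zk72.NS.le_worst hδ hD (Finset.mem_powerset.1 hB) hF hFU)
  rw [mul_assoc]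
  exact mul_le_mul_of_nonneg_left (mul_le_mul_of_nonneg_left g3 g2) g1

/-- Lipschitz functions of the curve in the window. -/
theorem window_lip {R : Rect} {C δ0 : ℝ} (hδ0' : 0 < δ0)
    (hS : Pool.Agent.Zk72.NS.Shr R C δ0) {δ p : ℕ → ℝ} (hδ : ∀ n, 0 < δ n)
    (hδ0 : Tendsto δ atTop (𝓝 0)) (hp : ∀ n, 0 ≤ p n ∧ p n ≤ 1)
    (h : Tendsto (fun n => |p n - 1/2| * δ n ^ (-(3/4 : ℝ))) atTop (𝓝 0))
    {f : Curve → ℝ} {K : ℝ} (hf : ∀ x y, |f x - f y| ≤ K * dist x y)
    (h01 : ∀ x, 0 ≤ f x ∧ f x ≤ 1) :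
    Tendsto (fun n => mean R (δ n) (perc R (δ n) (p n)) f -
      mean R (δ n) (perc R (δ n) (1/2)) f) atTop (𝓝 0) := by
  have hf' : ∀ x y, |f x - f y| ≤ |K| * dist x y := fun x y =>
    (hf x y).trans (mul_le_mul_of_nonneg_right (le_abs_self K) dist_nonneg)
  rw [Metric.tendsto_atTop]
  intro η hη
  set ρ := η / (2 * (|K| + 1)) with hρdef
  have hρ : 0 < ρ := by positivity
  have hKρ : |K| * ρ ≤ η / 2 := by
    rw [hρdef, ← mul_div_assoc, div_le_div_iff₀ (by positivity) (by norm_num)]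
    nlinarith [abs_nonneg K]
  have hlim : Tendsto (fun n => 2 * C * (|p n - 1/2| * δ n ^ (-(3/4) : ℝ)) / ρ) atTop (𝓝 0) := by
    have := (h.const_mul (2 * C)).div_const ρ
    rw [mul_zero, zero_div] at this
    exact this
  have hev1 : ∀ᶠ n in atTop, δ n ≤ δ0 := (hδ0.eventually_lt_const hδ0').mono fun n h => h.le
  have hev2 : ∀ᶠ n in atTop, 2 * C * (|p n - 1/2| * δ n ^ (-(3/4) : ℝ)) / ρ < η / 2 :=
    hlim.eventually_lt_const (by positivity)
  obtain ⟨N, hN⟩ := eventually_atTop.1 (hev1.and hev2)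
  refine ⟨N, fun n hn => ?_⟩
  obtain ⟨h1, h2⟩ := hN n hn
  have hε : |p n - 1/2| ≤ 1/2 := abs_le.2 ⟨by linarith [(hp n).1], by linarith [(hp n).2]⟩
  have hc : Cond (R.dm (δ n)).edges (1/2 - |p n - 1/2|) (1/2 + |p n - 1/2|)
      (perc R (δ n) (p n)) := indep_cond (by linarith) (by linarith) fun e _ => by
    have a1 := neg_abs_le (p n - 1/2)
    have a2 := le_abs_self (p n - 1/2)
    constructor <;> linarith
  obtain ⟨c, hcc, hb⟩ := Pool.Agent.Zk72.NS.coupling_of hS (hδ n) h1 (abs_nonneg _) hε (nearP hc)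
  rw [Real.dist_eq, sub_zero]
  have h3 := lip_close hcc hc.total (abs_nonneg K) hρ hf' h01
  have h4 := hb ρ hρ
  linarith

/-- **The exact near-critical window of the exploration path.** -/
theorem result :
    -- (1) homogeneous percolation
    (∀ δ p : ℕ → ℝ, (∀ n, 0 < δ n) → Tendsto δ atTop (𝓝 0) → (∀ n, 0 ≤ p n ∧ p n ≤ 1) →
      ((∀ (R : Rect) (f : Curve → ℝ), (∃ K : ℝ, ∀ x y, |f x - f y| ≤ K * dist x y) →
          (∀ x, 0 ≤ f x ∧ f x ≤ 1) →
          Tendsto (fun n => mean R (δ n) (perc R (δ n) (p n)) f -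
            mean R (δ n) (perc R (δ n) (1/2)) f) atTop (𝓝 0)) ↔
        Tendsto (fun n => |p n - 1/2| * δ n ^ (-(3/4 : ℝ))) atTop (𝓝 0))) ∧
    -- (2) bounds
    (∀ R : Rect, ∃ C c δ0 : ℝ, 0 < C ∧ 0 < c ∧ 0 < δ0 ∧
      ∀ δ ε : ℝ, 0 < δ → δ ≤ δ0 → 0 ≤ ε → ε ≤ 1/2 →
      (∀ ρ : ℝ, 0 < ρ → ∑ U ∈ (R.dm δ).edges.powerset, ∑ B ∈ (R.dm δ).edges.powerset,
        perc R δ ε U * perc R δ (1/2) B *
          ind (∃ F ⊆ (R.dm δ).edges, F \ U = B \ U ∧ ρ < cdist (R.curve δ B) (R.curve δ F)) ≤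
        C * (ε * δ ^ (-(3/4 : ℝ))) / ρ) ∧
      (∀ w : Finset Edg → ℝ, Cond (R.dm δ).edges (1/2 - ε) (1/2 + ε) w →
        ∃ κ : Finset Edg → Finset Edg → ℝ, (∀ F F', 0 ≤ κ F F') ∧
          (∀ F ⊆ (R.dm δ).edges, ∑ F' ∈ (R.dm δ).edges.powerset, κ F F' = w F) ∧
          (∀ F' ⊆ (R.dm δ).edges, ∑ F ∈ (R.dm δ).edges.powerset, κ F F' =
            perc R δ (1/2) F') ∧
          ∀ ρ : ℝ, 0 < ρ →
            ∑ F ∈ (R.dm δ).edges.powerset, ∑ F' ∈ (R.dm δ).edges.powerset,
              κ F F' * ind (ρ < cdist (R.curve δ F) (R.curve δ F')) ≤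
              C * (ε * δ ^ (-(3/4 : ℝ))) / ρ) ∧
      (∀ w : Finset Edg → ℝ, Cond (R.dm δ).edges (1/2 + ε) 1 w → ∀ ρ : ℝ, 0 < ρ → ρ ≤ 1 →
        mean R δ w (fun x => ind (ρ < dist x ⟨arcR R⟩)) ≤
          C / ρ ^ 2 * Real.exp (-(c * (ρ * (ε ^ (4/3 : ℝ) / δ))))) ∧
      (∀ w : Finset Edg → ℝ, Cond (R.dm δ).edges 0 (1/2 - ε) w → ∀ ρ : ℝ, 0 < ρ → ρ ≤ 1 →
        mean R δ w (fun x => ind (ρ < dist x ⟨arcL R⟩)) ≤
          C / ρ ^ 2 * Real.exp (-(c * (ρ * (ε ^ (4/3 : ℝ) / δ)))))) ∧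
    -- (3) limits
    (∀ (R : Rect) (δ ε : ℕ → ℝ) (w : ℕ → Finset Edg → ℝ), (∀ n, 0 < δ n) →
      Tendsto δ atTop (𝓝 0) → (∀ n, 0 ≤ ε n ∧ ε n ≤ 1/2) →
      (Tendsto (fun n => ε n * δ n ^ (-(3/4 : ℝ))) atTop (𝓝 0) →
        (∀ n, Cond (R.dm (δ n)).edges (1/2 - ε n) (1/2 + ε n) (w n)) →
        ∀ P : ProbabilityMeasure Curve,
          Conv R δ w P ↔ Conv R δ (fun n => perc R (δ n) (1/2)) P) ∧
      (Tendsto (fun n => ε n * δ n ^ (-(3/4 : ℝ))) atTop atTop →
        ((∀ n, Cond (R.dm (δ n)).edges (1/2 + ε n) 1 (w n)) →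
          Conv R δ w (diracProba ⟨arcR R⟩)) ∧
        ((∀ n, Cond (R.dm (δ n)).edges 0 (1/2 - ε n) (w n)) →
          Conv R δ w (diracProba ⟨arcL R⟩)))) ∧
    -- (4) examples
    (∀ (S : Finset Edg) (a b : ℝ) (p : Edg → ℝ), 0 ≤ a → b ≤ 1 →
      (∀ e ∈ S, a ≤ p e ∧ p e ≤ b) → Cond S a b (indep S p)) ∧
    (∀ R : Rect, ∃ δ0 : ℝ, 0 < δ0 ∧ ∀ δ q : ℝ, 0 < δ → δ ≤ δ0 → 0 < q →
      Cond (R.dm δ).edges (1/2 - |q - 1|) (1/2 + |q - 1|) (fk (R.dm δ) q)) := by
  refine ⟨?_, ?_, ?_, fun S a b p ha hb hp => indep_cond ha hb hp, ?_⟩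
  · intro δ p hδ hδ0 hp
    constructor
    · intro h
      exact Pool.Agent.Zk36.CO.necessity δ p hδ hδ0 hp h
    · rintro h R f ⟨K, hK⟩ h01
      obtain ⟨C, δ0, hC, hδ0', _, hS⟩ := Pool.Agent.Zk72.NS.sharp_main R
      exact window_lip hδ0' hS hδ hδ0 hp h hK h01
  · intro R
    obtain ⟨C1, δ1, hC1, hδ1, _, h1⟩ := Pool.Agent.Zk72.NS.sharp_main R
    obtain ⟨C2, c2, δ2, hC2, hc2, hδ2, h2⟩ := Pool.Agent.Zk36.CO.up R
    obtain ⟨C3, c3, δ3, hC3, hc3, hδ3, h3⟩ := Pool.Agent.Zk36.CO.down R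
    refine ⟨2 * C1 + C2 + C3, min c2 c3, min δ1 (min δ2 δ3), by positivity, lt_min hc2 hc3,
      lt_min hδ1 (lt_min hδ2 hδ3), fun δ ε hδ hle h0 hε => ?_⟩
    have hl1 : δ ≤ δ1 := hle.trans (min_le_left _ _)
    have hl2 : δ ≤ δ2 := hle.trans ((min_le_right _ _).trans (min_le_left _ _))
    have hl3 : δ ≤ δ3 := hle.trans ((min_le_right _ _).trans (min_le_right _ _))
    have hx : 0 ≤ ε * δ ^ (-(3/4 : ℝ)) := mul_nonneg h0 (Real.rpow_nonneg hδ.le _)
    refine ⟨fun ρ hρ => ?_, fun w hw => ?_, fun w hw ρ hρ hρ1 => ?_, fun w hw ρ hρ hρ1 => ?_⟩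
    · refine (adversary_le hδ.le (h1 δ hδ hl1).1 h0 (by linarith)).trans
        (((h1 δ hδ hl1).2 ε h0 (by linarith) ρ hρ).trans ?_)
      refine div_le_div_of_nonneg_right (mul_le_mul_of_nonneg_right ?_ hx) hρ.le
      linarith
    · obtain ⟨κ, hκ, hb⟩ := Pool.Agent.Zk72.NS.coupling_of h1 hδ hl1 h0 hε (nearP hw)
      refine ⟨κ, hκ.1, fun F hF => hκ.2.1 F (Finset.mem_powerset.2 hF), fun F' hF' => ?_,
        fun ρ hρ => (hb ρ hρ).trans ?_⟩
      · rw [hκ.2.2 F' (Finset.mem_powerset.2 hF')]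
        exact (indep_half hF').symm
      · refine div_le_div_of_nonneg_right (mul_le_mul_of_nonneg_right ?_ hx) hρ.le
        linarith
    · have g := h2 δ hδ hl2 ε h0 hε w hw.nonneg hw.total
        (fun e he F hF heF => (hw.cond e he F hF heF).1) ρ hρ hρ1
      refine (le_of_eq ?_).trans (g.trans ?_)
      · rfl
      · have hy : 0 ≤ ρ * (ε ^ (4/3 : ℝ) / δ) :=
          mul_nonneg hρ.le (div_nonneg (Real.rpow_nonneg h0 _) hδ.le)
        have hz := mul_le_mul_of_nonneg_right (min_le_left c2 c3) hy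
        gcongr
        linarith
    · have g := h3 δ hδ hl3 ε h0 hε w hw.nonneg hw.total
        (fun e he F hF heF => (hw.cond e he F hF heF).2) ρ hρ hρ1
      refine (le_of_eq ?_).trans (g.trans ?_)
      · rfl
      · have hy : 0 ≤ ρ * (ε ^ (4/3 : ℝ) / δ) :=
          mul_nonneg hρ.le (div_nonneg (Real.rpow_nonneg h0 _) hδ.le)
        have hz := mul_le_mul_of_nonneg_right (min_le_right c2 c3) hy
        gcongr
        linarith
  · intro R δ ε w hδ hδ0 hε
    refine ⟨fun h hc P => ?_, fun h => ⟨fun hc => ?_, fun hc => ?_⟩⟩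
    · obtain ⟨C, δ0, hC, hδ0', h01, hS⟩ := Pool.Agent.Zk72.NS.sharp_main R
      rw [conv_iff (fun n => nearP (hc n)) P,
        Pool.Agent.Zk72.NS.limits_of hC hδ0' h01 hS δ ε w hδ hδ0 (fun n => (hε n).1) h
          (fun n => nearP (hc n)) P,
        ← conv_iff (fun n => Pool.Agent.Zk72.NS.half_nearP (R.dm (δ n)).edges) P]
      refine forall_congr' fun f => ?_
      have e : ∀ n, mean R (δ n) (fun _ => (1/2) ^ (R.dm (δ n)).edges.card) f =
          mean R (δ n) (perc R (δ n) (1/2)) f := fun n =>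
        mean_congr f fun F hF => (indep_half hF).symm
      simp only [e]
    · intro f
      have g := Pool.Agent.Zk36.CO.exp_lim (S := fun n => (R.dm (δ n)).edges) (w := w)
        (fun n => (hc n).nonneg) (fun n => (hc n).total) (X := fun n F => R.curve (δ n) F)
        (a := arcR R)
        (Pool.Agent.Zk36.CO.up_lim R δ ε w hδ hδ0 (fun n => (hε n).1) (fun n => (hε n).2) h
          (fun n => (hc n).nonneg) (fun n => (hc n).total)
          (fun n e he F hF heF => ((hc n).cond e he F hF heF).1)) f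
      have e : ∫ x, f x ∂(diracProba (⟨arcR R⟩ : Curve) : Measure Curve) = f ⟨arcR R⟩ :=
        integral_dirac' _ _ f.continuous.stronglyMeasurable
      rw [e]
      exact g
    · intro f
      have g := Pool.Agent.Zk36.CO.exp_lim (S := fun n => (R.dm (δ n)).edges) (w := w)
        (fun n => (hc n).nonneg) (fun n => (hc n).total) (X := fun n F => R.curve (δ n) F)
        (a := arcL R)
        (Pool.Agent.Zk36.CO.down_lim R δ ε w hδ hδ0 (fun n => (hε n).1) (fun n => (hε n).2) h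
          (fun n => (hc n).nonneg) (fun n => (hc n).total)
          (fun n e he F hF heF => ((hc n).cond e he F hF heF).2)) f
      have e : ∫ x, f x ∂(diracProba (⟨arcL R⟩ : Curve) : Measure Curve) = f ⟨arcL R⟩ :=
        integral_dirac' _ _ f.continuous.stronglyMeasurable
      rw [e]
      exact g
  · intro R
    obtain ⟨C, δ0, hC, hδ0', _, hS⟩ := Pool.Agent.Zk72.NS.sharp_main R
    refine ⟨δ0, hδ0', fun δ q hδ hle hq => ?_⟩
    obtain ⟨g1, g2, g3⟩ := Pool.Agent.Zk60.NW.fk_near (hS δ hδ hle).1 hq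
    refine ⟨fun F _ => g1 F, g2, fun e he F hF heF => ?_⟩
    have := abs_le.1 (g3 e he F hF heF)
    constructor <;> linarith

end Pool.Agent.Results.MP_fe58d8_pr.ExactWindow
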