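import Pool.Agent.Zk33.HG.All2
import Pool.Agent.Zk33.HG.CT3
import Pool.Agent.Results.MP_fe58d8_pr.UniformDimension

/-!
# Fixed sets and independent exploration paths: seven paths meet, eight do not

Critical bond percolation on `δ ℤ²` in rectangles `R i`, `i < k` (`Rect`: `D = (-A, B) × (0, H)`,
boundary points `a = t + i H`, `b = 0`, the counterclockwise arc from `a` to `b` wired, the other
one dual-wired). `Rect.law δ` is the law of the exploration path, as a curve (`Rect.curve`, run at
constant speed) with its natural time; `IsLimit R μ` says that `μ` is a weak limit of `R.law (δ i)`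
along some sequence of meshes `δ i → 0`. Below `μ i` is any such limit for `R i`, the curves are
independent (`Measure.pi`), `⋂ i, Set.range (ω i).1` is the set of their common points, and `K` is
compact and contained in all the rectangles. `Content s c S`: all finite covers of `S` by discs
satisfy `∑ r ^ s ≥ c`.

(1) Limits exist.
(2) If `k ≤ 7` then, almost surely, for all `r > 0`, there are common points in the rectangles at
    distance less than `r` from the common end point `b = 0`, they form a set of dimension exactly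
    `2 - k/4`, and the set of the `k`-tuples of times at which the `k` curves are at one of these
    points has dimension exactly `(8 - k)/7`; the `(2 - k/4)`-dimensional Hausdorff measure of the
    set of common points in the rectangles is zero. If `k ≥ 8` there are, almost surely, no common
    points in the rectangles.
(3) If the closed set `S` is contained in the cone `9 |x| ≤ y` and invariant under a scaling
    (`l S ⊆ S` for some `0 < l < 1`) and `dim S > k/4`, then, almost surely, for all `r > 0`, the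
    intersection of `S` and the common points has, at distance less than `r` of `0`, points in the
    rectangles, and the set of these points has dimension exactly `dim S - k/4` (for instance lines
    through `0` if `k ≤ 3`).
(4) For every `S` in the rectangles, almost surely, the intersection has dimension at most
    `dim S - k/4` and is empty if `dim S < k/4`. If `S` is compact and its `s`-dimensional
    Hausdorff measure is zero for some `s ≥ k/4`, then, almost surely, the `(s - k/4)`-dimensional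
    Hausdorff measure of the intersection is zero (it is empty if `s = k/4`). Almost surely, for
    all sets `S` simultaneously, the set of the times at which a given one of the curves is in the
    intersection, and the set of the `k`-tuples of times at which the `k` curves are at the same
    point of `S`, have dimension `4/7` times the dimension of the intersection.
(5) If `k ≤ 7`, the set of the common points in a nonempty open subset `U` of the rectangles has
    dimension `2 - k/4` with probability at least `p > 0`, uniformly over the limits.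
(6) With constants which depend only on the rectangles and on `K`: a compact `S ⊆ K` is met by the
    set of common points with probability at least `c / M` if it carries a probability measure with
    Riesz energy `∬ |x - y| ^ (-k/4) ≤ M`, and any `S ⊆ K` with probability at most
    `C ∑ r ^ (k/4)` for each finite cover by discs.
(7) If the compact set `S ⊆ K` has `s`-dimensional content at least `m > 0`, where `s > k/4`, the
    intersection has dimension at least `s - k/4` with probability at least `p`, and, for each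
    `0 ≤ t < s - k/4`, it has `t`-dimensional content at least `c t > 0` with probability at least
    `p`; `p > 0` and `c` do not depend on `S` and on the limits.

The case `k = 8` uses that the trace of every limit has `7/4`-dimensional measure zero, a
consequence of the starting files `ChungLaw` and `ArcContent`.

Modules by helper17 (`Pool.Agent.Zk17.HF`: discrete Frostman measures), helper11
(`Pool.Agent.Zk11.HF`, `HG`: products, upper bound of dimensions, independent scales, open sets,
sets of measure zero), helper69 (`Pool.Agent.Zk69.HG`: several independent curves) and helper77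
(`Pool.Agent.Zk77.HG`: thick sets).
-/

set_option autoImplicit false

namespace Pool.Agent.Results.MP_fe58d8_pr.HittingAndIntersections

open H984N MeasureTheory Filter Topology Metric Set Pool.Agent.Zk33.HF
open scoped ENNReal

theorem result {k : ℕ} (hk : 1 ≤ k) (R : Fin k → Rect) :
    -- (1)
    (∀ i, ∃ μ, IsLimit (R i) μ) ∧
    -- (2)
    (k ≤ 7 → ∀ μ : Fin k → ProbabilityMeasure X, (∀ i, IsLimit (R i) (μ i)) →
      ∀ᵐ ω ∂(Measure.pi fun i => (μ i : Measure X)), (∀ r : ℝ, 0 < r →
        ((⋂ i, (R i).D) ∩ ball 0 r ∩ ⋂ i, range (ω i).1).Nonempty ∧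
        dimH ((⋂ i, (R i).D) ∩ ball 0 r ∩ ⋂ i, range (ω i).1) =
          ENNReal.ofReal (2 - (k : ℝ) / 4) ∧
        dimH {u : Fin k → unitInterval | ∃ z ∈ (⋂ i, (R i).D) ∩ ball 0 r, ∀ i, (ω i).1 (u i) = z} =
          ENNReal.ofReal ((8 - (k : ℝ)) / 7)) ∧
        Measure.hausdorffMeasure (2 - (k : ℝ) / 4)
          ((⋂ i, (R i).D) ∩ ⋂ i, range (ω i).1) = 0) ∧
    (8 ≤ k → ∀ μ : Fin k → ProbabilityMeasure X, (∀ i, IsLimit (R i) (μ i)) →
      ∀ᵐ ω ∂(Measure.pi fun i => (μ i : Measure X)),
        (⋂ i, (R i).D) ∩ ⋂ i, range (ω i).1 = ∅) ∧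
    -- (3)
    (∀ μ : Fin k → ProbabilityMeasure X, (∀ i, IsLimit (R i) (μ i)) →
      ∀ (S : Set ℂ) (l : ℝ), IsClosed S → 0 < l → l < 1 → (∀ z ∈ S, (l : ℂ) * z ∈ S) →
        (∀ z ∈ S, 9 * |z.re| ≤ z.im) → ENNReal.ofReal ((k : ℝ) / 4) < dimH S →
        ∀ᵐ ω ∂(Measure.pi fun i => (μ i : Measure X)), ∀ r : ℝ, 0 < r →
          ((S ∩ ⋂ i, (R i).D) ∩ ball 0 r ∩ ⋂ i, range (ω i).1).Nonempty ∧
          dimH ((S ∩ ⋂ i, (R i).D) ∩ ball 0 r ∩ ⋂ i, range (ω i).1) =
            dimH S - ENNReal.ofReal ((k : ℝ) / 4)) ∧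
    -- (4)
    (∀ μ : Fin k → ProbabilityMeasure X, (∀ i, IsLimit (R i) (μ i)) →
      ∀ S : Set ℂ, (∀ i, S ⊆ (R i).D) → ∀ᵐ ω ∂(Measure.pi fun i => (μ i : Measure X)),
        dimH (S ∩ ⋂ i, range (ω i).1) ≤ dimH S - ENNReal.ofReal ((k : ℝ) / 4) ∧
        (dimH S < ENNReal.ofReal ((k : ℝ) / 4) → S ∩ ⋂ i, range (ω i).1 = ∅)) ∧
    (∀ μ : Fin k → ProbabilityMeasure X, (∀ i, IsLimit (R i) (μ i)) →
      ∀ S : Set ℂ, IsCompact S → (∀ i, S ⊆ (R i).D) → ∀ s : ℝ, (k : ℝ) / 4 ≤ s →
        Measure.hausdorffMeasure s S = 0 → ∀ᵐ ω ∂(Measure.pi fun i => (μ i : Measure X)),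
          Measure.hausdorffMeasure (s - (k : ℝ) / 4) (S ∩ ⋂ i, range (ω i).1) = 0) ∧
    (∀ μ : Fin k → ProbabilityMeasure X, (∀ i, IsLimit (R i) (μ i)) →
      ∀ᵐ ω ∂(Measure.pi fun i => (μ i : Measure X)), ∀ S : Set ℂ,
        dimH {u : Fin k → unitInterval | ∃ z ∈ S, ∀ i, (ω i).1 (u i) = z} =
          4 / 7 * dimH (S ∩ ⋂ i, range (ω i).1) ∧
        ∀ i, dimH {u | (ω i).1 u ∈ S ∩ ⋂ j, range (ω j).1} =
          4 / 7 * dimH (S ∩ ⋂ j, range (ω j).1)) ∧
    -- (5)
    (k ≤ 7 → ∀ U : Set ℂ, IsOpen U → U.Nonempty → (∀ i, U ⊆ (R i).D) →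
      ∃ p : ℝ, 0 < p ∧ ∀ μ : Fin k → ProbabilityMeasure X, (∀ i, IsLimit (R i) (μ i)) →
      ∃ 𝒢 : Set (Fin k → X), MeasurableSet 𝒢 ∧
        p ≤ (Measure.pi fun i => (μ i : Measure X)).real 𝒢 ∧
        ∀ ω ∈ 𝒢, (U ∩ ⋂ i, range (ω i).1).Nonempty ∧
          dimH (U ∩ ⋂ i, range (ω i).1) = ENNReal.ofReal (2 - (k : ℝ) / 4)) ∧
    (∀ K : Set ℂ, IsCompact K → (∀ i, K ⊆ (R i).D) →
      -- (6)
      (∃ c C : ℝ, 0 < c ∧ 0 < C ∧
        ∀ μ : Fin k → ProbabilityMeasure X, (∀ i, IsLimit (R i) (μ i)) → ∀ S : Set ℂ, S ⊆ K →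
          (IsCompact S → ∀ ν : Measure ℂ, IsProbabilityMeasure ν → ν Sᶜ = 0 →
            ∀ M : ℝ, 0 < M →
            ∫⁻ x, ∫⁻ y, (edist x y) ^ (-((k : ℝ) / 4)) ∂ν ∂ν ≤ ENNReal.ofReal M →
            c / M ≤ (Measure.pi fun i => (μ i : Measure X)).real
              {ω | (S ∩ ⋂ i, range (ω i).1).Nonempty}) ∧
          (∀ s : Finset (ℂ × ℝ), (∀ p ∈ s, 0 < p.2) → S ⊆ ⋃ p ∈ s, ball p.1 p.2 →
            (Measure.pi fun i => (μ i : Measure X)).real
              {ω | (S ∩ ⋂ i, range (ω i).1).Nonempty} ≤ C * ∑ p ∈ s, p.2 ^ ((k : ℝ) / 4))) ∧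
      -- (7)
      (∀ s m : ℝ, (k : ℝ) / 4 < s → 0 < m → ∃ p : ℝ, 0 < p ∧ ∃ c : ℝ → ℝ,
        (∀ t, 0 ≤ t → t < s - (k : ℝ) / 4 → 0 < c t) ∧
        ∀ μ : Fin k → ProbabilityMeasure X, (∀ i, IsLimit (R i) (μ i)) →
        ∀ S : Set ℂ, S ⊆ K → IsCompact S → Content s m S →
          (∀ t, 0 ≤ t → t < s - (k : ℝ) / 4 →
            IsClosed {ω : Fin k → X | Content t (c t) (S ∩ ⋂ i, range (ω i).1)} ∧
            p ≤ (Measure.pi fun i => (μ i : Measure X)).real
              {ω | Content t (c t) (S ∩ ⋂ i, range (ω i).1)}) ∧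
          ∃ 𝒢 : Set (Fin k → X), MeasurableSet 𝒢 ∧
            p ≤ (Measure.pi fun i => (μ i : Measure X)).real 𝒢 ∧
            ∀ ω ∈ 𝒢, (S ∩ ⋂ i, range (ω i).1).Nonempty ∧
              ENNReal.ofReal (s - (k : ℝ) / 4) ≤ dimH (S ∩ ⋂ i, range (ω i).1))) := by
  refine ⟨?_, ?_, ?_, ?_, ?_, ?_, ?_, ?_, ?_⟩
  · intro i
    obtain ⟨φ, hφ, μ, hμ⟩ := (UniformDimension.result (R i)).1 (fun n => 1 / ((n : ℝ) + 1))
      (fun n => by positivity) tendsto_one_div_add_atTop_nhds_zero_nat
    exact ⟨μ, fun n => 1 / ((φ n : ℝ) + 1), fun n => by positivity,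
      tendsto_one_div_add_atTop_nhds_zero_nat.comp hφ.tendsto_atTop, hμ⟩
  · intro hk7 μ hμ
    filter_upwards [Pool.Agent.Zk33.HG.seven' hk hk7 R hμ,
      Pool.Agent.Zk33.HG.meas_zero' hk hk7 R hμ, Pool.Agent.Zk33.HG.coll_ae hk R hμ]
      with ω h1 h2 h3
    refine ⟨fun r hr => ⟨(h1 r hr).1, (h1 r hr).2, ?_⟩, h2⟩
    have h4 : dimH ((⋂ i, (R i).D) ∩ ball 0 r ∩ comm ω) = ENNReal.ofReal (2 - (k : ℝ) / 4) :=
      (h1 r hr).2
    have a1 : (4 / 7 : ℝ≥0∞) = ENNReal.ofReal (4 / 7) := by
      rw [ENNReal.ofReal_div_of_pos (by norm_num)]; norm_num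
    rw [(h3 ((⋂ i, (R i).D) ∩ ball 0 r)).1, h4, a1, ← ENNReal.ofReal_mul (by norm_num)]
    congr 1
    ring
  · intro hk8 μ hμ
    exact Pool.Agent.Zk33.HG.eight' hk hk8 R hμ
  · intro μ hμ S l hS hl hl1 hlS hC hd
    exact Pool.Agent.Zk33.HG.sim_eq' hk R hμ hS hl hl1 hlS hC hd
  · intro μ hμ S hS
    exact dim_up hk R hμ hS
  · intro μ hμ S hS hD s hs h0
    exact Pool.Agent.Zk33.HG.null_set hk R hμ hS hD hs h0
  · intro μ hμ
    exact Pool.Agent.Zk33.HG.coll_ae hk R hμ
  · intro hk7 U hU hne hUD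
    exact Pool.Agent.Zk33.HG.open_eq' hk hk7 R hU hne hUD
  · intro K hK hD
    refine ⟨?_, ?_⟩
    · obtain ⟨c, hc, h1⟩ := capacity hk R hK hD
      obtain ⟨C, hC, h2⟩ := content_up hk R hK hD
      exact ⟨c, C, hc, hC, fun μ hμ S hS => ⟨fun hSc => h1 μ hμ S hS hSc, h2 μ hμ S hS⟩⟩
    · intro s m hs hm
      exact Pool.Agent.Zk33.HG.content_exact hk R hK hD hs hm

end Pool.Agent.Results.MP_fe58d8_pr.HittingAndIntersections
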