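import Pool.Agent.Zk72.NF.Adv1
import Pool.Agent.Zk72.NF.HB
import Pool.Agent.Zk72.NF.TL2
import Pool.Agent.Zk55.NF.CP2
import Pool.Agent.Zk99.SUB
import Pool.Agent.Zk99.LIM
import Pool.Agent.Zk36.NF.BALL

/-!
# The near-critical family of the exploration path of bond percolation on `ℤ²`

Bond percolation on `δ ℤ²` in a rectangle with the Dobrushin boundary condition, at the parameters
`p = 1/2 + a δ ^ (3/4)`; the exploration path is a curve modulo reparametrisation.

(1) Two bounds inside of the window. (a) Let `B` be critical, `U` an independent random set of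
edges of density `ε ≤ L δ ^ (3/4)` and `T` an independent random set of edges of density `θ`. The
probability that there are two configurations, both equal to `B` outside of `U` and equal to one
another outside of `U ∩ T`, whose exploration paths are at distance greater than `ρ` from one
another, is at most `C θ ε δ ^ (-3/4) / ρ`. (b) Any two families of independent edges, with
probabilities `p e` and `p' e` in `[1/2 - L δ ^ (3/4), 1/2 + L δ ^ (3/4)]` and with
`|p e - p' e| ≤ η`, have a coupling such that the distance of the two exploration paths exceeds `ρ`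
with probability at most `C η δ ^ (-3/4) / ρ`.

(2) Along every sequence of meshes with limit `0` there is one subsequence along which the laws of
the trace of the exploration path at `p = 1/2 + a δ ^ (3/4)` converge, for all real `a` at the same
time, to a family `ν a` of probability measures on the space of the compact sets. This family is
locally Hölder continuous in `a` with exponent `1/2`, for the bounded Lipschitz distance, and the
Hausdorff distance of the trace from the complementary arc (the wired arc) exceeds `ρ` with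
probability at most `C ρ ^ (-2) exp (- c ρ a ^ (4/3))` under `ν a` (under `ν (-a)`), `a ≥ 0`.

Definitions: `Pool.Agent.H984R4.NP.Model` (`Rect`, `Rect.dm`, `Rect.curve`, `pl`, `pos`),
`Pool.Agent.H984R4.NP.Defs` (`Dm`, `Dm.edges`, `Dm.wir`, `Dm.cfg`, `Dm.walk`, `Dm.len`),
`Pool.Agent.H984R3.Per.Defs` (`St`, `nxt`, `orb`), `Pool.Agent.H342R3.Lim.Defs` (`cdist`),
`Pool.Agent.Zk36.CO.Defs` (`arcR`, `arcL`).

Joint work of helper72, helper36, helper55, helper60 and helper99 with the authors of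
`MP_fe58d8_pr/ExactWindow`.
-/

set_option autoImplicit false

namespace Pool.Agent.Results.MP_fe58d8_pr.NearCriticalFamily

open H974 H984N H342L Finset MeasureTheory TopologicalSpace Filter Topology
open Pool.Agent.Zk36.CO (arcR arcL)

/-- Independent edges: `e` is in the random set with probability `p e`. -/
noncomputable def indep (S : Finset Edg) (p : Edg → ℝ) (F : Finset Edg) : ℝ :=
  (∏ e ∈ F, p e) * ∏ e ∈ S \ F, (1 - p e)

/-- Homogeneous percolation. -/
noncomputable def perc (R : Rect) (δ p : ℝ) (F : Finset Edg) : ℝ :=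
  indep (R.dm δ).edges (fun _ => p) F

/-- The set of the points of a path. -/
noncomputable def pts (γ : C(unitInterval, ℂ)) : NonemptyCompacts ℂ :=
  ⟨⟨Set.range γ, isCompact_range γ.continuous⟩, Set.range_nonempty _⟩

/-- The expectation of a function of the trace of the exploration path at mesh `δ` and
`p = 1/2 + a δ ^ (3/4)`. -/
noncomputable def mean (R : Rect) (δ a : ℝ) (f : NonemptyCompacts ℂ → ℝ) : ℝ :=
  ∑ F ∈ (R.dm δ).edges.powerset, perc R δ (1/2 + a * δ ^ (3/4 : ℝ)) F * f (pts (R.curve δ F))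

/-- **The near-critical family of the exploration path.** -/
theorem result :
    -- (1) bounds
    (∀ (R : Rect) (L : ℝ), 0 < L → ∃ C δ0 : ℝ, 0 < C ∧ 0 < δ0 ∧
      ∀ δ : ℝ, 0 < δ → δ ≤ δ0 →
      (∀ ε θ : ℝ, 0 ≤ ε → ε ≤ 1 → 0 ≤ θ → θ ≤ 1 → ε ≤ L * δ ^ (3/4 : ℝ) → ∀ ρ : ℝ, 0 < ρ →
        ∑ T ∈ (R.dm δ).edges.powerset, ∑ U ∈ (R.dm δ).edges.powerset,
          ∑ B ∈ (R.dm δ).edges.powerset,
            perc R δ θ T * (perc R δ ε U * (perc R δ (1/2) B *
              ind (∃ F ⊆ (R.dm δ).edges, ∃ F' ⊆ (R.dm δ).edges, F \ U = B \ U ∧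
                F' \ (U ∩ T) = F \ (U ∩ T) ∧ ρ < cdist (R.curve δ F) (R.curve δ F')))) ≤
          C * (θ * (ε * δ ^ (-(3/4 : ℝ)))) / ρ) ∧
      (∀ (p p' : Edg → ℝ) (η : ℝ), 0 < η →
        (∀ e ∈ (R.dm δ).edges, |p e - 1/2| ≤ L * δ ^ (3/4 : ℝ) ∧
          |p' e - 1/2| ≤ L * δ ^ (3/4 : ℝ) ∧ |p e - p' e| ≤ η) →
        ∃ κ : Finset Edg → Finset Edg → ℝ, (∀ F F', 0 ≤ κ F F') ∧
          (∀ F ⊆ (R.dm δ).edges, ∑ F' ∈ (R.dm δ).edges.powerset, κ F F' =
            indep (R.dm δ).edges p F) ∧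
          (∀ F' ⊆ (R.dm δ).edges, ∑ F ∈ (R.dm δ).edges.powerset, κ F F' =
            indep (R.dm δ).edges p' F') ∧
          ∀ ρ : ℝ, 0 < ρ →
            ∑ F ∈ (R.dm δ).edges.powerset, ∑ F' ∈ (R.dm δ).edges.powerset,
              κ F F' * ind (ρ < cdist (R.curve δ F) (R.curve δ F')) ≤
              C * (η * δ ^ (-(3/4 : ℝ))) / ρ)) ∧
    -- (2) limits
    (∀ (R : Rect) (δ : ℕ → ℝ), (∀ n, 0 < δ n) → Tendsto δ atTop (𝓝 0) →
      ∃ φ : ℕ → ℕ, StrictMono φ ∧ ∃ ν : ℝ → ProbabilityMeasure (NonemptyCompacts ℂ),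
        (∀ (a : ℝ) (f : BoundedContinuousFunction (NonemptyCompacts ℂ) ℝ),
          Tendsto (fun n => mean R (δ (φ n)) a f) atTop
            (𝓝 (∫ x, f x ∂(ν a : Measure (NonemptyCompacts ℂ))))) ∧
        (∀ L : ℝ, 0 < L → ∃ C : ℝ, ∀ a b : ℝ, |a| ≤ L → |b| ≤ L →
          ∀ f : NonemptyCompacts ℂ → ℝ, LipschitzWith 1 f → (∀ x, |f x| ≤ 1) →
            |(∫ x, f x ∂(ν a : Measure (NonemptyCompacts ℂ))) -
              ∫ x, f x ∂(ν b : Measure (NonemptyCompacts ℂ))| ≤ C * Real.sqrt |a - b|) ∧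
        ∃ C c : ℝ, 0 < C ∧ 0 < c ∧ ∀ a ρ : ℝ, 0 ≤ a → 0 < ρ → ρ ≤ 1 →
          (ν a : Measure (NonemptyCompacts ℂ)).real {x | ρ < dist x (pts (arcR R))} ≤
            C / ρ ^ 2 * Real.exp (-(c * (ρ * a ^ (4/3 : ℝ)))) ∧
          (ν (-a) : Measure (NonemptyCompacts ℂ)).real {x | ρ < dist x (pts (arcL R))} ≤
            C / ρ ^ 2 * Real.exp (-(c * (ρ * a ^ (4/3 : ℝ))))) := by
  refine ⟨fun R L hL => ?_, fun R δ hδ hδ0 => ?_⟩
  · obtain ⟨C1, δ1, hC1, hδ1, hδ1', h1⟩ := Pool.Agent.Zk72.NF.fam R L hL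
    obtain ⟨C2, δ2, hC2, hδ2, hδ2', h2⟩ := Pool.Agent.Zk72.NF.coup Pool.Agent.Zk55.NF.t_CP2 R L hL
    refine ⟨C1 + C2, min δ1 δ2, by positivity, lt_min hδ1 hδ2, fun δ hδ hle => ⟨?_, ?_⟩⟩
    · intro ε θ h0 h1' g0 g1 hε ρ hρ
      have hx : ε * δ ^ (-(3/4) : ℝ) ≤ L := by
        have hp : 0 < δ ^ (3/4 : ℝ) := Real.rpow_pos_of_pos hδ _
        rw [Real.rpow_neg hδ.le, ← div_eq_mul_inv, div_le_iff₀ hp]
        exact hε
      have hy : 0 ≤ θ * (ε * δ ^ (-(3/4 : ℝ))) :=
        mul_nonneg g0 (mul_nonneg h0 (Real.rpow_nonneg hδ.le _))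
      refine (Pool.Agent.Zk72.NF.adv_sum h0 h1' g0 g1).trans
        (((h1 δ hδ (hle.trans (min_le_left _ _))).2 ε θ h0 h1' g0 g1 hx ρ hρ).trans ?_)
      refine div_le_div_of_nonneg_right (mul_le_mul_of_nonneg_right ?_ hy) hρ.le
      linarith
    · intro p p' η hη hp
      obtain ⟨κ, k1, k2, k3, k4⟩ := (h2 δ hδ (hle.trans (min_le_right _ _))).2 p p' η hη hp
      refine ⟨κ, k1, k2, k3, fun ρ hρ => (k4 ρ hρ).trans ?_⟩
      have hy : 0 ≤ η * δ ^ (-(3/4 : ℝ)) := mul_nonneg hη.le (Real.rpow_nonneg hδ.le _)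
      refine div_le_div_of_nonneg_right (mul_le_mul_of_nonneg_right ?_ hy) hρ.le
      linarith
  · obtain ⟨φ, hφ, ν, h1, h2⟩ := Pool.Agent.Zk99.t_LIM Pool.Agent.Zk99.t_SUB
      Pool.Agent.Zk36.NF.t_BALL R
      (Pool.Agent.Zk72.NF.unif Pool.Agent.Zk55.NF.t_CP2 Pool.Agent.Zk72.NF.t_HB R) δ hδ hδ0
    obtain ⟨C1, c1, hC1, hc1, h3⟩ := Pool.Agent.Zk72.NF.tl_up R
    obtain ⟨C2, c2, hC2, hc2, h4⟩ := Pool.Agent.Zk72.NF.tl_down R
    refine ⟨φ, hφ, ν, h1, h2, C1 + C2, min c1 c2, by positivity, lt_min hc1 hc2,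
      fun a ρ ha hρ hρ1 => ?_⟩
    have hx : 0 ≤ ρ * a ^ (4/3 : ℝ) := mul_nonneg hρ.le (Real.rpow_nonneg ha _)
    have m1 := mul_le_mul_of_nonneg_right (min_le_left c1 c2) hx
    have m2 := mul_le_mul_of_nonneg_right (min_le_right c1 c2) hx
    constructor
    · refine (h3 (fun n => δ (φ n)) (fun n => hδ _) (hδ0.comp hφ.tendsto_atTop) a ha (ν a) (h1 a)
        ρ hρ hρ1).trans ?_
      gcongr
      linarith
    · refine (h4 (fun n => δ (φ n)) (fun n => hδ _) (hδ0.comp hφ.tendsto_atTop) a ha (ν (-a))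
        (h1 (-a)) ρ hρ hρ1).trans ?_
      gcongr
      linarith

end Pool.Agent.Results.MP_fe58d8_pr.NearCriticalFamily
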