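import Pool.Agent.Zk36.UC.Fin

/-!
# The winding of the percolation interface on cylinders: complex exponential moments and cumulants,
uniformly in the mesh and the height

Critical bond percolation on the cylinder of odd circumference `2n+1` and height `M`, in its medial
picture (definitions: `Pool/Agent/H906R3/K6/Model.lean`: `Xd n M c` is the displacement, on the
universal cover, of the interface from the bottom to the top, all states of the plaquettes being
equally likely). In units in which the circumference is `2π`, the winding angle is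
`Wd n M c = 2π Xd / (2n+1)` and the height is `ht n M = 2π M / (2n+1)`; `lawW n M` is the law of
`Wd`. `ScalingLimit h μ` says that `μ` is the weak limit of such laws along a sequence of cylinders
whose mesh goes to zero and whose height goes to `h`. `cumulant μ j` is the `j`-th cumulant of `μ`.

* For every configuration the displacement is well defined (`End n M c X` holds for exactly one
  `X`).
* For all complex `z` in a fixed disc, `E exp (z Wd) = exp (3 z² ht + w)` with
  `|w| ≤ (K + ε n ht) |z|²`, for all `n ≥ 1` and all heights, and `ε n → 0`.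
* The `j`-th cumulant of `Wd` is `κ n j ht + O(1)`, with `κ n j = 6 [j = 2] + O(1/n)`, for all
  `n ≥ 1` and all heights.
* Scaling limits exist along a subsequence of every sequence of cylinders whose height converges.
* Every scaling limit at every height `h` has
  `∫ exp (z x) dμ = exp (3 z² h) (1 + O(|z|²))` for all complex `z` in a fixed disc, and its `j`-th
  cumulant is `6 h [j = 2] + O(1)`, with constants which do not depend on `h`.
* For every scaling limit at height `h ≥ C`, the probability of a winding angle `≥ a h` (or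
  `≤ - a h`) is at most `exp (- a² h / 12 + C)` and at least `exp (- a² h / 12 - C √h)`.
* On the lattice, these probabilities are `exp (- (a² / 12 + o(1)) ht)`, uniformly, as soon as `n`
  and `ht` are large, in whatever order.

For the driving function of radial SLE(6), `√6` times a Brownian motion, `E exp (z W) = exp (3 z² h)`.
-/

set_option autoImplicit false

namespace Pool.Agent.Results.MP_fe58d8_pr.WindingUniform

open H906K Pool.Agent.Zk36.CG Pool.Agent.Zk36.UW Pool.Agent.Zk36.UC Filter Topology MeasureTheory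

theorem result :
    (∀ (n M : ℕ) (c : Fin M → Fin (2 * n + 1) → Bool), ∃! X : ℤ, End n M c X) ∧
    (∃ R : ℝ, 0 < R ∧ ∃ K : ℝ, 0 ≤ K ∧ ∃ ε : ℕ → ℝ, Tendsto ε atTop (𝓝 0) ∧ (∀ n, 0 ≤ ε n) ∧
      ∀ n : ℕ, 1 ≤ n → ∀ (M : ℕ) (z : ℂ), ‖z‖ < R → ∃ w : ℂ,
        ‖w‖ ≤ (K + ε n * ht n M) * ‖z‖ ^ 2 ∧
        ∫ x, Complex.exp (z * (x : ℂ)) ∂(lawW n M : Measure ℝ) =
          Complex.exp (3 * z ^ 2 * (ht n M : ℂ) + w)) ∧
    (∃ κ : ℕ → ℕ → ℝ, ∀ j : ℕ, 1 ≤ j → ∃ K : ℝ, ∀ n : ℕ, 1 ≤ n →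
      |κ n j - if j = 2 then 6 else 0| ≤ K / (2 * n + 1) ∧
      ∀ M : ℕ, |cumulant (lawW n M : Measure ℝ) j - κ n j * ht n M| ≤ K) ∧
    (∀ (h : ℝ) (n M : ℕ → ℕ), Tendsto n atTop atTop →
      Tendsto (fun i => ht (n i) (M i)) atTop (𝓝 h) →
      ∃ φ : ℕ → ℕ, StrictMono φ ∧ ∃ μ : ProbabilityMeasure ℝ,
        Tendsto (fun i => lawW (n (φ i)) (M (φ i))) atTop (𝓝 μ)) ∧
    (∃ R : ℝ, 0 < R ∧ ∃ K : ℝ, 0 ≤ K ∧ ∀ (h : ℝ) (μ : ProbabilityMeasure ℝ),
      ScalingLimit h μ → ∀ z : ℂ, ‖z‖ < R →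
        Integrable (fun x : ℝ => Complex.exp (z * (x : ℂ))) (μ : Measure ℝ) ∧
        ‖Complex.exp (-(3 * z ^ 2 * (h : ℂ))) *
          ∫ x, Complex.exp (z * (x : ℂ)) ∂(μ : Measure ℝ) - 1‖ ≤ K * ‖z‖ ^ 2) ∧
    (∀ j : ℕ, ∃ K : ℝ, ∀ (h : ℝ) (μ : ProbabilityMeasure ℝ), ScalingLimit h μ →
      |cumulant (μ : Measure ℝ) j - (if j = 2 then 6 else 0) * h| ≤ K) ∧
    (∃ a0 : ℝ, 0 < a0 ∧ ∃ C : ℝ, ∀ (h : ℝ) (μ : ProbabilityMeasure ℝ),
      ScalingLimit h μ → C ≤ h → ∀ a : ℝ, 0 < a → a < a0 →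
        Real.exp (-(a ^ 2 / 12) * h - C * Real.sqrt h) ≤
          (μ : Measure ℝ).real (Set.Ici (a * h)) ∧
        (μ : Measure ℝ).real (Set.Ici (a * h)) ≤ Real.exp (-(a ^ 2 / 12) * h + C) ∧
        Real.exp (-(a ^ 2 / 12) * h - C * Real.sqrt h) ≤
          (μ : Measure ℝ).real (Set.Iic (-(a * h))) ∧
        (μ : Measure ℝ).real (Set.Iic (-(a * h))) ≤ Real.exp (-(a ^ 2 / 12) * h + C)) ∧
    (∃ a0 : ℝ, 0 < a0 ∧ ∀ a : ℝ, 0 < a → a < a0 → ∀ ε : ℝ, 0 < ε →
      ∃ (n0 : ℕ) (h0 : ℝ), ∀ n M : ℕ, n0 ≤ n → h0 ≤ ht n M →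
        |Real.log ((lawW n M : Measure ℝ).real (Set.Ici (a * ht n M))) / ht n M
          + a ^ 2 / 12| < ε ∧
        |Real.log ((lawW n M : Measure ℝ).real (Set.Iic (-(a * ht n M)))) / ht n M
          + a ^ 2 / 12| < ε) :=
  ⟨fun n M c => ⟨_, (end_run n M c _).2 rfl, fun X hX => (end_run n M c X).1 hX⟩,
    fin_complex, fin_cumulants, subseq, limit_complex, limit_cumulants, limit_deviations,
    fin_deviations⟩

end Pool.Agent.Results.MP_fe58d8_pr.WindingUniform
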